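import Mathlib
import Pool.Agent.Q109.AS.Stm

/-!
# The statement `NP` of the project AS (MP_15e61c_co)
-/

set_option autoImplicit false

namespace Pool.Agent.Q109.AS

open Filter Topology

/-- `(13^(11 L))^(10/11) = 13^(10 L)` -/
theorem np_rpow (L : ℕ) : (((13 ^ (11 * L) : ℕ) : ℝ)) ^ ((10 : ℝ) / 11) = (13 : ℝ) ^ (10 * L) := by
  have h1 : (((13 ^ (11 * L) : ℕ) : ℝ)) = (13 : ℝ) ^ (((11 * L : ℕ)) : ℝ) := by
    rw [Real.rpow_natCast]; push_cast; rfl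
  rw [h1, ← Real.rpow_mul (by norm_num), ← Real.rpow_natCast (13 : ℝ) (10 * L)]
  congr 1
  push_cast
  ring

/-- for every `δ > 0` and `N` some `L ≥ N` has `2 (13 * 10^10)^L < δ (13^10)^L` -/
theorem np_choose (δ : ℝ) (hδ : 0 < δ) (N : ℕ) :
    ∃ L : ℕ, N ≤ L ∧ 2 * ((13 : ℝ) * 10 ^ 10) ^ L < δ * ((13 : ℝ) ^ 10) ^ L := by
  have hr0 : (0 : ℝ) ≤ (13 * 10 ^ 10) / 13 ^ 10 := by positivity
  have hr1 : ((13 : ℝ) * 10 ^ 10) / 13 ^ 10 < 1 := by norm_num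
  have ht := tendsto_pow_atTop_nhds_zero_of_lt_one hr0 hr1
  have hev : ∀ᶠ L : ℕ in atTop, (((13 : ℝ) * 10 ^ 10) / 13 ^ 10) ^ L < δ / 2 :=
    ht.eventually (gt_mem_nhds (by positivity))
  obtain ⟨L, hL, hN⟩ := (hev.and (eventually_ge_atTop N)).exists
  refine ⟨L, hN, ?_⟩
  rw [div_pow, div_lt_iff₀ (by positivity)] at hL
  generalize ((13 : ℝ) * 10 ^ 10) ^ L = x at hL ⊢
  generalize ((13 : ℝ) ^ 10) ^ L = y at hL ⊢
  linarith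

/-- the statement `NP` -/
theorem np : S_NP := by
  rintro hUP ⟨δ, hδ, n₀, h⟩
  obtain ⟨L, hN, hL⟩ := np_choose δ hδ n₀
  obtain ⟨a, ha, hS⟩ := hUP L
  have hn : n₀ ≤ 13 ^ (11 * L) := by
    have h1 : L < 13 ^ L := Nat.lt_pow_self (by norm_num)
    have h2 : 13 ^ L ≤ 13 ^ (11 * L) := Nat.pow_le_pow_right (by norm_num) (by omega)
    omega
  have hbd : ∀ i, 1 ≤ i → i ≤ 13 ^ (11 * L) →
      (a i : ℝ) ≤ (((13 ^ (11 * L) : ℕ)) : ℝ) ^ ((10 : ℝ) / 11) := by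
    intro i _ _
    rw [np_rpow]
    exact_mod_cast (ha i).le
  have h3 := h (13 ^ (11 * L)) hn a hbd
  rw [np_rpow] at h3
  have h4 : ((S (13 ^ (11 * L)) a).ncard : ℝ) ≤ ((13 : ℝ) ^ L + 1) * 10 ^ (10 * L) := by
    exact_mod_cast hS
  have h5 : (1 : ℝ) ≤ 13 ^ L := one_le_pow₀ (by norm_num)
  have h6 : ((13 : ℝ) ^ L + 1) * 10 ^ (10 * L) ≤ 2 * (13 * 10 ^ 10) ^ L := by
    rw [mul_pow, ← pow_mul]
    have h7 : (0 : ℝ) ≤ 10 ^ (10 * L) := by positivity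
    nlinarith
  rw [← pow_mul] at hL
  linarith

end Pool.Agent.Q109.AS
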