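import Pool.Agent.Q141.CP.Stm

/-!
# Second moment: a choice of signs with few bad points
-/

set_option autoImplicit false

namespace Pool.Agent.Q147.CPCHO

open Finset Pool.Agent.Q141.CP

lemma second_moment : ∀ (n : ℕ) (d : Fin n → ℝ),
    ∑ c : Fin n → Bool, (∑ i, (if c i then d i else -d i)) ^ 2 = 2 ^ n * ∑ i, d i ^ 2 := by
  intro n
  induction n with
  | zero => intro d; simp
  | succ n ih =>
    intro d
    have h1 := (Fin.consEquiv (fun _ : Fin (n + 1) => Bool)).sum_comp
      (fun c : Fin (n + 1) → Bool => (∑ i, (if c i then d i else -d i)) ^ 2)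
    rw [← h1, Fintype.sum_prod_type, Fintype.sum_bool]
    have h2 : ∀ (b : Bool) (c : Fin n → Bool),
        (∑ i, (if (Fin.consEquiv (fun _ : Fin (n + 1) => Bool)) (b, c) i then d i else -d i)) =
          (if b then d 0 else -d 0) + ∑ i : Fin n, (if c i then d i.succ else -d i.succ) := by
      intro b c
      rw [Fin.sum_univ_succ]
      simp [Fin.consEquiv]
    simp only [h2]
    rw [← Finset.sum_add_distrib]
    have h3 : ∑ c : Fin n → Bool,
        (2 * d 0 ^ 2 + 2 * (∑ i : Fin n, (if c i then d i.succ else -d i.succ)) ^ 2) =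
        2 ^ (n + 1) * ∑ i, d i ^ 2 := by
      have h4 := ih (fun i => d i.succ)
      rw [Finset.sum_add_distrib, ← Finset.mul_sum, ← Finset.mul_sum, h4, Fin.sum_univ_succ]
      simp only [Finset.sum_const, Finset.card_univ, Fintype.card_pi, Fintype.card_bool,
        Finset.prod_const, Fintype.card_fin, nsmul_eq_mul]
      push_cast
      ring
    rw [← h3]
    refine Finset.sum_congr rfl fun c _ => ?_
    simp only [if_true, Bool.false_eq_true, if_false]
    ring

theorem t_CHO : S_CHO := by
  classical
  intro D V τ hD hτ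
  have hD' : (1 : ℝ) ≤ D := by exact_mod_cast hD
  have hden : (0 : ℝ) < D * τ ^ 2 := by positivity
  -- indicator
  let b : Vtx D → Fin D → Bool → ℝ := fun x i s => if x + stepv (i, s) ∈ V then 1 else 0
  have hnb : ∀ x, (nb V x : ℝ) = ∑ i, (b x i true + b x i false) := by
    intro x
    unfold nb
    rw [Finset.card_filter]
    push_cast
    rw [Fintype.sum_prod_type]
    exact Finset.sum_congr rfl fun i _ => by rw [Fintype.sum_bool]
  have hrc : ∀ x (c : Fin D → Bool), (rc V c x : ℝ) = ∑ i, b x i (!(c i)) := by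
    intro x c
    unfold rc
    rw [Finset.card_filter]
    push_cast
    rfl
  have hdiff : ∀ x (c : Fin D → Bool), (rc V c x : ℝ) - nb V x / 2 =
      (1 / 2) * ∑ i, (if c i then (b x i false - b x i true) else -(b x i false - b x i true)) := by
    intro x c
    rw [hnb, hrc, Finset.mul_sum, Finset.sum_div, ← Finset.sum_sub_distrib]
    refine Finset.sum_congr rfl fun i _ => ?_
    cases c i <;> simp <;> ring
  have hmom : ∀ x, ∑ c : Fin D → Bool, ((rc V c x : ℝ) - nb V x / 2) ^ 2 ≤ (2 : ℝ) ^ D * D / 4 := by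
    intro x
    have h1 : ∀ c : Fin D → Bool, ((rc V c x : ℝ) - nb V x / 2) ^ 2 = (1 / 4) *
        (∑ i, (if c i then (b x i false - b x i true) else -(b x i false - b x i true))) ^ 2 := by
      intro c; rw [hdiff]; ring
    rw [Finset.sum_congr rfl (fun c _ => h1 c), ← Finset.mul_sum,
      second_moment D (fun i => b x i false - b x i true)]
    have h2 : ∑ i : Fin D, (b x i false - b x i true) ^ 2 ≤ D := by
      calc ∑ i : Fin D, (b x i false - b x i true) ^ 2 ≤ ∑ _i : Fin D, (1 : ℝ) := by
            refine Finset.sum_le_sum fun i _ => ?_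
            simp only [b]
            split_ifs <;> norm_num
        _ = D := by simp
    have h3 : (0 : ℝ) < 2 ^ D := by positivity
    nlinarith
  have hbad : ∀ x, τ * (2 * D) ≤ (nb V x : ℝ) →
      (((Finset.univ : Finset (Fin D → Bool)).filter
        fun c => 4 * rc V c x < nb V x).card : ℝ) ≤ (2 : ℝ) ^ D / (D * τ ^ 2) := by
    intro x hx
    rw [le_div_iff₀ hden]
    have h1 : (((Finset.univ : Finset (Fin D → Bool)).filter
        fun c => 4 * rc V c x < nb V x).card : ℝ) * ((D * τ / 2) ^ 2) ≤
        ∑ c : Fin D → Bool, ((rc V c x : ℝ) - nb V x / 2) ^ 2 := by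
      rw [← nsmul_eq_mul, ← Finset.sum_const]
      refine (Finset.sum_le_sum (g := fun c => ((rc V c x : ℝ) - nb V x / 2) ^ 2) ?_).trans
        (Finset.sum_le_sum_of_subset_of_nonneg (Finset.filter_subset _ _)
          (fun c _ _ => sq_nonneg _))
      intro c hc
      have hc' : 4 * rc V c x < nb V x := (Finset.mem_filter.1 hc).2
      have hc2 : (4 : ℝ) * rc V c x < nb V x := by exact_mod_cast hc'
      have h5 : (D : ℝ) * τ / 2 ≤ nb V x / 2 - rc V c x := by nlinarith
      have h6 : 0 ≤ (D : ℝ) * τ / 2 := by positivity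
      have h7 := mul_self_le_mul_self h6 h5
      nlinarith
    have h2 := h1.trans (hmom x)
    have h3 : (0 : ℝ) < D := by linarith
    have h4 : (((Finset.univ : Finset (Fin D → Bool)).filter
        fun c => 4 * rc V c x < nb V x).card : ℝ) * (D * τ ^ 2) * D ≤ 2 ^ D * D := by
      nlinarith
    exact le_of_mul_le_mul_right h4 h3
  -- double counting
  have hsum : ∑ c : Fin D → Bool,
      ((V.filter fun x => τ * (2 * D) ≤ nb V x ∧ 4 * rc V c x < nb V x).card : ℝ) ≤
      ∑ _c : Fin D → Bool, (V.card : ℝ) / (D * τ ^ 2) := by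
    have h1 : ∀ c : Fin D → Bool,
        ((V.filter fun x => τ * (2 * D) ≤ nb V x ∧ 4 * rc V c x < nb V x).card : ℝ) =
        ∑ x ∈ V, if (τ * (2 * D) ≤ nb V x ∧ 4 * rc V c x < nb V x) then (1 : ℝ) else 0 := by
      intro c
      rw [Finset.card_filter]
      push_cast
      rfl
    rw [Finset.sum_congr rfl (fun c _ => h1 c), Finset.sum_comm]
    have h2 : ∀ x ∈ V, ∑ c : Fin D → Bool,
        (if (τ * (2 * D) ≤ nb V x ∧ 4 * rc V c x < nb V x) then (1 : ℝ) else 0) ≤
        2 ^ D / (D * τ ^ 2) := by
      intro x _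
      by_cases hx : τ * (2 * D) ≤ (nb V x : ℝ)
      · refine le_trans (le_of_eq ?_) (hbad x hx)
        rw [Finset.card_filter]
        push_cast
        refine Finset.sum_congr rfl fun c _ => ?_
        simp [hx]
      · have : ∀ c : Fin D → Bool,
            (if (τ * (2 * D) ≤ nb V x ∧ 4 * rc V c x < nb V x) then (1 : ℝ) else 0) = 0 := by
          intro c; simp [hx]
        rw [Finset.sum_congr rfl (fun c _ => this c)]
        simp only [Finset.sum_const_zero]
        positivity
    refine (Finset.sum_le_sum h2).trans (le_of_eq ?_)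
    simp only [Finset.sum_const, Finset.card_univ, Fintype.card_pi, Fintype.card_bool,
      Finset.prod_const, Fintype.card_fin, nsmul_eq_mul]
    push_cast
    ring
  obtain ⟨c, _, hc⟩ := Finset.exists_le_of_sum_le
    (Finset.univ_nonempty : (Finset.univ : Finset (Fin D → Bool)).Nonempty) hsum
  exact ⟨c, hc⟩

end Pool.Agent.Q147.CPCHO
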