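import Pool.Agent.Q127.DJ.Stm

set_option autoImplicit false

namespace Pool.Agent.Q147.DJ_ONE

open Pool.Agent.Q127.DJ MeasureTheory Filter Topology

lemma meas_set {m : ℕ} (f : ℕ → Fin m) (a : Fin m) (s : ℕ) :
    MeasurableSet {x : ℕ → ℕ | f (x s) = a} := by
  have : {x : ℕ → ℕ | f (x s) = a} = (fun x : ℕ → ℕ => x s) ⁻¹' {n | f n = a} := rfl
  rw [this]
  exact measurable_pi_apply s (MeasurableSet.of_discrete)

lemma bmI {m : ℕ} (f : ℕ → Fin m) (a : Fin m) (s : ℕ) : BM 1 (I f a s) := by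
  constructor
  · unfold I
    exact Measurable.ite (meas_set f a s) measurable_const measurable_const
  · intro x
    unfold I
    split_ifs <;> simp

lemma depI {m : ℕ} (f : ℕ → Fin m) (a : Fin m) (s t : ℕ) (hst : s < t) : Dep f t (I f a s) := by
  intro x y hxy
  have h := congrFun hxy ⟨s, hst⟩
  simp only [nm] at h
  simp only [I, h]

lemma int_I (μ : Measure (ℕ → ℕ)) {m : ℕ} (f : ℕ → Fin m) (a : Fin m) (s : ℕ) :
    ∫ x, I f a s x ∂μ = μ.real {x | f (x s) = a} := by
  have h : (fun x => I f a s x) = Set.indicator {x : ℕ → ℕ | f (x s) = a} (fun _ => (1:ℝ)) := by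
    ext x; simp [I, Set.indicator]
  rw [h, integral_indicator (meas_set f a s)]
  simp

lemma S_iter (s : ℕ) (x : ℕ → ℕ) : (S^[s] x) 0 = x s := by
  have : ∀ s i : ℕ, (S^[s] x) i = x (i + s) := by
    intro s
    induction s with
    | zero => intro i; simp
    | succ n ih =>
      intro i
      rw [Function.iterate_succ_apply']
      show (S^[n] x) (i+1) = _
      rw [ih]; congr 1; ring
  simpa using this s 0

lemma inv_I (μ : Measure (ℕ → ℕ)) (hμ : MeasurePreserving S μ μ) {m : ℕ} (f : ℕ → Fin m) (a : Fin m) (s : ℕ) :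
    μ.real {x | f (x s) = a} = μ.real {x | f (x 0) = a} := by
  have h := (hμ.iterate s).measure_preimage (meas_set f a 0).nullMeasurableSet
  unfold Measure.real
  rw [← h]
  congr 2
  ext x
  simp [S_iter]

lemma absA (h1 : S_inn) (μ : Measure (ℕ → ℕ)) [IsProbabilityMeasure μ] {m : ℕ} (f : ℕ → Fin m) (a : Fin m)
    (t k : ℕ) : |A μ f a t k| ≤ 1 := by
  unfold A
  have hg := (h1 μ m f a t).2.1.2
  have hI := (bmI f a (t+k)).2
  have := norm_integral_le_of_norm_le_const (μ := μ) (f := fun x => g μ f a t x * I f a (t + k) x) (C := 1)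
    (Eventually.of_forall (fun x => by
      rw [norm_mul, Real.norm_eq_abs, Real.norm_eq_abs]
      exact mul_le_one₀ (hg x) (abs_nonneg _) (hI x)))
  simpa using this

lemma gen (N : ℕ) (hN : 0 < N) (c ε : ℝ) (u v : ℕ → ℝ) :
    (∑ i ∈ Finset.range N, u i) / (N : ℝ) - (c + ε * ((∑ i ∈ Finset.range N, v i) / (N : ℝ))) =
      (∑ i ∈ Finset.range N, (u i - (c + ε * v i))) / (N : ℝ) := by
  have hN' : (N : ℝ) ≠ 0 := by exact_mod_cast hN.ne'
  have e : ∑ i ∈ Finset.range N, (u i - (c + ε * v i)) =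
      ∑ i ∈ Finset.range N, u i - (N * c + ε * ∑ i ∈ Finset.range N, v i) := by
    rw [Finset.sum_sub_distrib, Finset.sum_add_distrib, Finset.mul_sum, Finset.sum_const, Finset.card_range,
      nsmul_eq_mul]
  rw [e]
  field_simp

theorem one (h1 : S_inn) (h2 : S_expa) (h3 : S_sqs) (h4 : S_avg) (h5 : S_joi) (h6 : S_qme) : S_one := by
  intro μ ν _ _ hμ hν m k f h a b α β j hα hβ hne
  obtain ⟨T, hT⟩ := h4 (A μ f a) (A ν h b) α β j (fun t k => absA h1 μ f a t k) (fun t k => absA h1 ν h b t k)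
    hα hβ (h3 μ m f a α hα) (h3 ν k h b β hβ)
  set τ := ∑' i, α i * β (i + j) with hτ
  have hτ0 : 0 < |τ| := abs_pos.mpr hne
  obtain ⟨ε, he0, he1, heτ⟩ : ∃ ε : ℝ, 0 < ε ∧ ε ≤ 1 ∧ ε ≤ |τ| / 2 :=
    ⟨min 1 (|τ|/2), by positivity, min_le_left _ _, min_le_right _ _⟩
  have hq := fun N : ℕ => h6 μ ν m k f h a b ε (T N) (T N + N + j + 1) he0.le he1
  choose Q hQ1 hQ2 hQ3 using hq
  set pa := μ.real {x | f (x 0) = a} with hpa
  set pb := ν.real {y | h (y 0) = b} with hpb
  have key : ∀ N i : ℕ, i < N → |(Q N).real {p | f (p.1 (T N + i)) = a ∧ h (p.2 (T N + i + j)) = b} -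
      (pa * pb + ε * ∑ t ∈ Finset.Ico (T N) (T N + i + 1),
        A μ f a t (T N + i - t) * A ν h b t (T N + i - t + j))| ≤ ε ^ 2 := by
    intro N i hi
    rw [hQ3 N (T N + i) (T N + i + j)]
    have e := h2 μ ν m k f h a b ε (T N) (T N + N + j + 1) (I f a (T N + i)) (I h b (T N + i + j)) he0.le he1
      (bmI _ _ _) (bmI _ _ _)
    rw [int_I μ f a (T N + i), int_I ν h b (T N + i + j), inv_I μ hμ f a (T N + i), inv_I ν hν h b (T N + i + j),
      ← hpa, ← hpb] at e
    have hs : ∑ t ∈ Finset.Ico (T N) (T N + N + j + 1), (∫ x, g μ f a t x * I f a (T N + i) x ∂μ) *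
        (∫ y, g ν h b t y * I h b (T N + i + j) y ∂ν) =
        ∑ t ∈ Finset.Ico (T N) (T N + i + 1), A μ f a t (T N + i - t) * A ν h b t (T N + i - t + j) := by
      symm
      have hsub : Finset.Ico (T N) (T N + i + 1) ⊆ Finset.Ico (T N) (T N + N + j + 1) :=
        Finset.Ico_subset_Ico le_rfl (by omega)
      rw [← Finset.sum_subset hsub]
      · apply Finset.sum_congr rfl
        intro t ht
        rw [Finset.mem_Ico] at ht
        unfold A
        rw [show t + (T N + i - t) = T N + i by omega, show t + (T N + i - t + j) = T N + i + j by omega]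
      · intro t ht1 ht2
        rw [Finset.mem_Ico] at ht1 ht2
        have hz : ∫ x, g μ f a t x * I f a (T N + i) x ∂μ = 0 := by
          have := (h1 μ m f a t).2.2.1 1 (I f a (T N + i)) (bmI _ _ _) (depI f a _ _ (by omega))
          rw [← this]
          congr 1
          ext x
          ring
        rw [hz, zero_mul]
    rw [hs] at e
    rw [← sub_sub]
    exact e
  obtain ⟨ξ, hξ1, hξ2, hξ3, hξ4, hξ5⟩ := h5 μ ν hμ hν m k f h a b j Q T (pa * pb + ε * τ) (ε ^ 2)
    (fun N : ℕ => pa * pb + ε * ((∑ i ∈ Finset.range N, ∑ t ∈ Finset.Ico (T N) (T N + i + 1),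
      A μ f a t (T N + i - t) * A ν h b t (T N + i - t + j)) / (N : ℝ)))
    (fun N => ⟨hQ1 N, hQ2 N⟩) (tendsto_const_nhds.add (hT.const_mul ε)) (by
      intro N hN
      have hN' : (0:ℝ) < N := by exact_mod_cast hN
      have e1 : (∑ i ∈ Finset.range N, (Q N).real {p | f (p.1 (T N + i)) = a ∧ h (p.2 (T N + i + j)) = b}) / (N : ℝ) -
          (pa * pb + ε * ((∑ i ∈ Finset.range N, ∑ t ∈ Finset.Ico (T N) (T N + i + 1),
            A μ f a t (T N + i - t) * A ν h b t (T N + i - t + j)) / (N : ℝ))) =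
          (∑ i ∈ Finset.range N, ((Q N).real {p | f (p.1 (T N + i)) = a ∧ h (p.2 (T N + i + j)) = b} -
            (pa * pb + ε * ∑ t ∈ Finset.Ico (T N) (T N + i + 1),
              A μ f a t (T N + i - t) * A ν h b t (T N + i - t + j)))) / (N : ℝ) := by
        exact gen N hN _ ε _ _
      rw [e1, abs_div, abs_of_pos hN', div_le_iff₀ hN']
      calc |∑ i ∈ Finset.range N, ((Q N).real {p | f (p.1 (T N + i)) = a ∧ h (p.2 (T N + i + j)) = b} -
            (pa * pb + ε * ∑ t ∈ Finset.Ico (T N) (T N + i + 1),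
              A μ f a t (T N + i - t) * A ν h b t (T N + i - t + j)))|
          ≤ ∑ i ∈ Finset.range N, |(Q N).real {p | f (p.1 (T N + i)) = a ∧ h (p.2 (T N + i + j)) = b} -
            (pa * pb + ε * ∑ t ∈ Finset.Ico (T N) (T N + i + 1),
              A μ f a t (T N + i - t) * A ν h b t (T N + i - t + j))| := Finset.abs_sum_le_sum_abs _ _
        _ ≤ ∑ i ∈ Finset.range N, ε ^ 2 := Finset.sum_le_sum (fun i hi => key N i (Finset.mem_range.mp hi))
        _ = ε ^ 2 * N := by rw [Finset.sum_const, Finset.card_range, nsmul_eq_mul]; ring)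
  refine ⟨ξ, hξ1, hξ2, hξ3, hξ4, ?_⟩
  intro heq
  rw [heq] at hξ5
  have e2 : |pa * pb - (pa * pb + ε * τ)| = ε * |τ| := by
    rw [show pa * pb - (pa * pb + ε * τ) = -(ε * τ) by ring, abs_neg, abs_mul, abs_of_pos he0]
  rw [e2] at hξ5
  have : |τ| ≤ ε := by
    have h' : ε * |τ| ≤ ε * ε := by rw [← sq]; exact hξ5
    exact le_of_mul_le_mul_left h' he0
  linarith

end Pool.Agent.Q147.DJ_ONE
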