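import Mathlib

set_option autoImplicit false
set_option maxRecDepth 100000

/-!
Data for the symmetric `(3, 2)`-net on 18 points coming from the generalized Hadamard matrix of
order 6 over `ZMod 3`, and the finite checks.
-/

namespace Q147.Net18

/-- bit `b` of `mask p` says whether the point `p` is on the block `b` -/
def mask : Fin 18 → ℕ := ![37449, 74898, 149796, 148617, 39186, 74340, 141393, 49826, 70924, 82705, 136290, 43148, 71841, 140042, 50260, 42273, 84042, 135828]

/-- incidence -/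
def inc (p b : Fin 18) : Bool := (mask p).testBit b.1

/-- parallel class of a block, class of non-joined points -/
def cls (b : Fin 18) : Fin 6 := ⟨b.1 / 3, by omega⟩

def f0 : Fin 18 → Fin 18 := ![1, 0, 2, 3, 5, 4, 7, 6, 8, 17, 16, 15, 12, 14, 13, 11, 10, 9]
def f1 : Fin 18 → Fin 18 := ![11, 9, 10, 0, 1, 2, 4, 5, 3, 14, 12, 13, 7, 8, 6, 15, 16, 17]
def i0 : Fin 18 → Fin 18 := ![1, 0, 2, 3, 5, 4, 7, 6, 8, 17, 16, 15, 12, 14, 13, 11, 10, 9]
def i1 : Fin 18 → Fin 18 := ![3, 4, 5, 8, 6, 7, 14, 12, 13, 1, 2, 0, 10, 11, 9, 15, 16, 17]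
def t0 : Fin 18 → Fin 18 := ![7, 6, 8, 10, 9, 11, 1, 0, 2, 4, 3, 5, 16, 15, 17, 13, 12, 14]
def t1 : Fin 18 → Fin 18 := ![15, 16, 17, 3, 4, 5, 11, 9, 10, 2, 0, 1, 7, 8, 6, 13, 14, 12]
def j0 : Fin 18 → Fin 18 := ![7, 6, 8, 10, 9, 11, 1, 0, 2, 4, 3, 5, 16, 15, 17, 13, 12, 14]
def j1 : Fin 18 → Fin 18 := ![10, 11, 9, 3, 4, 5, 14, 12, 13, 7, 8, 6, 17, 15, 16, 0, 1, 2]

/-- first generator -/
def g0 : Equiv.Perm (Fin 18) := ⟨f0, i0, by decide +kernel, by decide +kernel⟩
/-- second generator -/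
def g1 : Equiv.Perm (Fin 18) := ⟨f1, i1, by decide +kernel, by decide +kernel⟩
/-- first generator on blocks -/
def b0 : Equiv.Perm (Fin 18) := ⟨t0, j0, by decide +kernel, by decide +kernel⟩
/-- second generator on blocks -/
def b1 : Equiv.Perm (Fin 18) := ⟨t1, j1, by decide +kernel, by decide +kernel⟩

lemma aut0 : ∀ p b : Fin 18, inc (g0 p) (b0 b) = inc p b := by decide +kernel
lemma aut1 : ∀ p b : Fin 18, inc (g1 p) (b1 b) = inc p b := by decide +kernel

lemma class_blocks : ∀ (i : Fin 6) (p : Fin 18), ∃ b : Fin 18, (cls b = i ∧ inc p b = true) ∧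
    ∀ b' : Fin 18, cls b' = i ∧ inc p b' = true → b' = b := by decide +kernel
lemma class_points : ∀ (i : Fin 6) (b : Fin 18), ∃ p : Fin 18, (cls p = i ∧ inc p b = true) ∧
    ∀ p' : Fin 18, cls p' = i ∧ inc p' b = true → p' = p := by decide +kernel
lemma card_block : ∀ b : Fin 18, (Finset.univ.filter (fun p => inc p b = true)).card = 6 := by
  decide +kernel
lemma card_point : ∀ p : Fin 18, (Finset.univ.filter (fun b => inc p b = true)).card = 6 := by
  decide +kernel
lemma meet_blocks : ∀ b b' : Fin 18, cls b ≠ cls b' →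
    (Finset.univ.filter (fun p => inc p b = true ∧ inc p b' = true)).card = 2 := by
  decide +kernel
lemma meet_points : ∀ p p' : Fin 18, cls p ≠ cls p' →
    (Finset.univ.filter (fun b => inc p b = true ∧ inc p' b = true)).card = 2 := by
  decide +kernel
lemma joined_iff : ∀ p q : Fin 18, (p ≠ q ∧ ∃ b, inc p b = true ∧ inc q b = true) ↔
    cls p ≠ cls q := by decide +kernel
lemma inc_inj : ∀ b b' : Fin 18, (∀ p, inc p b = inc p b') → b = b' := by decide +kernel
lemma inc_inj' : ∀ p p' : Fin 18, (∀ b, inc p b = inc p' b) → p = p' := by decide +kernel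

/-- codes of words in the generators -/
def code : Fin 18 → Fin 18 → ℕ := ![
  ![1, 1, 119, 1, 119, 215, 854, 683, 470, 1514, 21946, 187, 2013, 438, 885, 246, 3549, 501],
  ![2, 1, 183, 2, 343, 183, 427, 1366, 726, 757, 5597, 374, 4026, 1397, 694, 123, 13754, 1002],
  ![238, 366, 1, 222, 238, 366, 1898, 2922, 235, 3546, 11194, 3802, 7610, 219, 347, 5850, 7098, 5594],
  ![493, 749, 30453, 1, 31, 55, 55, 87, 31, 373, 989, 182, 1981, 214, 342, 118, 1501, 245],
  ![986, 2778, 60906, 62, 1, 4023, 469, 174, 62, 1885, 1978, 15286, 3962, 1386, 171, 59, 5562, 490],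
  ![1754, 1498, 28405, 110, 8046, 1, 110, 725, 94, 746, 3514, 91, 6010, 107, 874, 7646, 3002, 2909],
  ![7094, 861, 954, 474, 7925, 28138, 1, 1975, 30, 4011, 1914, 7894, 1975, 30, 213, 27, 3543, 234],
  ![1373, 3931, 1466, 730, 32218, 12021, 3950, 1, 46, 362, 5591, 43, 3950, 341, 46, 3550, 2938, 3566],
  ![2746, 1722, 477, 237, 15850, 14069, 15, 23, 1, 181, 957, 86, 2007, 15, 23, 54, 1469, 117],
  ![6, 855, 439, 1750, 939, 378, 1718, 186, 3445, 1, 439, 6, 5815, 90, 1781, 251, 2743, 42],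
  ![478, 494, 878, 491, 3946, 7018, 859, 15802, 475, 878, 1, 494, 11630, 7898, 7642, 2798, 5486, 2782],
  ![3, 247, 471, 982, 1878, 189, 1909, 93, 950, 3, 247, 1, 5847, 45, 3562, 502, 2775, 21],
  ![1003, 1515, 15210, 987, 1883, 2907, 15834, 24026, 16090, 1006, 1902, 990, 1, 1006, 1902, 1502, 2926, 1518],
  ![2006, 3926, 445, 1974, 698, 221, 7658, 5877, 109, 170, 983, 7, 503, 1, 7, 22, 1463, 53],
  ![3798, 1963, 890, 2998, 349, 442, 3829, 11754, 218, 85, 951, 14, 951, 14, 1, 11, 1495, 106],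
  ![375, 5, 727, 1494, 125, 2902, 61, 2933, 1462, 13, 1751, 758, 3799, 1782, 29, 1, 375, 5],
  ![750, 734, 1390, 747, 11114, 3419, 7902, 1371, 731, 1758, 3438, 1774, 7534, 3822, 3806, 750, 1, 1390],
  ![1367, 10, 695, 2774, 250, 1451, 122, 2742, 1915, 26, 1719, 379, 3767, 891, 58, 10, 695, 1]]

/-- the image of a point under the word with the given code -/
def run : ℕ → ℕ → Fin 18 → Fin 18
  | 0, _, x => x
  | n + 1, c, x => if c ≤ 1 then x else
      run n (c / 2) (if c % 2 = 0 then f0 x else f1 x)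

/-- the permutation with the given code -/
def elt : ℕ → ℕ → Equiv.Perm (Fin 18)
  | 0, _ => 1
  | n + 1, c => if c ≤ 1 then 1 else
      elt n (c / 2) * (if c % 2 = 0 then g0 else g1)

lemma elt_apply (n : ℕ) : ∀ (c : ℕ) (x : Fin 18), elt n c x = run n c x := by
  induction n with
  | zero => intro c x; rfl
  | succ n ih =>
    intro c x
    unfold elt run
    split_ifs with h1 h2
    · rfl
    · rw [Equiv.Perm.mul_apply, ih]; rfl
    · rw [Equiv.Perm.mul_apply, ih]; rfl

lemma run_joined : ∀ p q : Fin 18, cls p ≠ cls q →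
    run 16 (code p q) 0 = p ∧ run 16 (code p q) 3 = q := by decide +kernel
lemma run_nonjoined : ∀ p q : Fin 18, p ≠ q → cls p = cls q →
    run 16 (code p q) 0 = p ∧ run 16 (code p q) 1 = q := by decide +kernel

lemma elt_mem (G : Subgroup (Equiv.Perm (Fin 18))) (h0 : g0 ∈ G) (h1 : g1 ∈ G) (n : ℕ) :
    ∀ c : ℕ, elt n c ∈ G := by
  induction n with
  | zero => intro c; exact G.one_mem
  | succ n ih =>
    intro c
    unfold elt
    split_ifs with h h'
    · exact G.one_mem
    · exact G.mul_mem (ih _) h0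
    · exact G.mul_mem (ih _) h1

end Q147.Net18
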