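import Mathlib
import Pool.Agent.Q2.PM.Stm

/-! Job PM-A8 -/

set_option autoImplicit false

namespace Q147.PM_A8

open Subgroup Q2.PM
open Q2.TN (IsPNil IsSyl IsChief Nm)

theorem card_map_mul {G K : Type} [Group G] [Group K] [Finite G] (f : G →* K) (H : Subgroup G)
    (h : f.ker ≤ H) : Nat.card f.ker * Nat.card (H.map f) = Nat.card H := by
  rw [← relIndex_ker, ← relIndex_bot_left, ← relIndex_bot_left]
  exact relIndex_mul_relIndex _ _ _ bot_le h

theorem card_map_inj {G K : Type} [Group G] [Group K] [Finite G] (f : G →* K) (H : Subgroup G)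
    (h : f.ker ⊓ H = ⊥) : Nat.card (H.map f) = Nat.card H := by
  rw [← relIndex_ker, ← relIndex_bot_left, ← inf_relIndex_right, h]

theorem a8 (h5 : S_A5) : S_A8 := by
  intro k G _ _ P N _ hP hN hyp
  obtain ⟨n, hn⟩ := (IsPGroup.iff_card.mp hP.1)
  have hPN : N ⊓ P = ⊥ := by
    apply inf_eq_bot_of_coprime
    rw [hn]
    exact (Nat.coprime_two_right.mpr hN).pow_right n
  refine ⟨?_, ?_⟩
  · intro H' hH' hc
    have hmap : (H'.comap (QuotientGroup.mk' N) ⊓ P).map (QuotientGroup.mk' N) = H' := by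
      ext y
      constructor
      · rintro ⟨x, hx, rfl⟩
        exact hx.1
      · intro hy
        obtain ⟨x, hx, rfl⟩ := hH' hy
        exact ⟨x, ⟨hy, hx⟩, rfl⟩
    have hcard : Nat.card (H'.comap (QuotientGroup.mk' N) ⊓ P : Subgroup G) = 2 ^ k := by
      rw [← hc]
      conv_rhs => rw [← hmap]
      rw [card_map_inj]
      rw [QuotientGroup.ker_mk', ← le_bot_iff, ← hPN]
      exact inf_le_inf le_rfl inf_le_right
    have := h5 G (G ⧸ N) (QuotientGroup.mk' N) _ (QuotientGroup.mk'_surjective N)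
      (hyp _ inf_le_right hcard)
    rwa [hmap] at this
  · apply card_map_inj
    rw [QuotientGroup.ker_mk', hPN]

end Q147.PM_A8
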