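import Mathlib
import Pool.Agent.Q2.PM.Stm

/-! Job PM-A9 -/

set_option autoImplicit false

namespace Q147.PM_A9

open Subgroup Q2.PM
open Q2.TN (IsPNil IsSyl IsChief Nm)

theorem card_map_mul {G K : Type} [Group G] [Group K] [Finite G] (f : G →* K) (H : Subgroup G)
    (h : f.ker ≤ H) : Nat.card f.ker * Nat.card (H.map f) = Nat.card H := by
  rw [← relIndex_ker, ← relIndex_bot_left, ← relIndex_bot_left]
  exact relIndex_mul_relIndex _ _ _ bot_le h

theorem a9 (h5 : S_A5) : S_A9 := by
  intro k m G _ _ P T _ hP hT hmk hyp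
  have hTp : IsPGroup 2 T := IsPGroup.of_card hT
  haveI : Fact (Nat.Prime 2) := ⟨Nat.prime_two⟩
  have hTP : T ≤ P := by
    have h1 : IsPGroup 2 (P ⊔ T : Subgroup G) := hP.1.to_sup_of_normal_right hTp
    have h2 := (hP.1.toSylow hP.2).is_maximal' h1 le_sup_left
    exact le_sup_right.trans h2.le
  have hker : (QuotientGroup.mk' T).ker = T := QuotientGroup.ker_mk' T
  refine ⟨?_, ?_⟩
  · intro H' hH' hc
    have hmap : (H'.comap (QuotientGroup.mk' T)).map (QuotientGroup.mk' T) = H' :=
      map_comap_eq_self_of_surjective (QuotientGroup.mk'_surjective T) H'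
    have hle : H'.comap (QuotientGroup.mk' T) ≤ P := by
      intro x hx
      obtain ⟨y, hy, hxy⟩ := hH' hx
      have h3 : y⁻¹ * x ∈ T := QuotientGroup.eq.mp hxy
      have h4 := P.mul_mem hy (hTP h3)
      rwa [mul_inv_cancel_left] at h4
    have hcard : Nat.card (H'.comap (QuotientGroup.mk' T)) = 2 ^ k := by
      have h5 := card_map_mul (QuotientGroup.mk' T) (H'.comap (QuotientGroup.mk' T))
        (ker_le_comap _ _)
      rw [hmap, hc, hker, hT, ← pow_add, Nat.add_sub_cancel' hmk] at h5
      exact h5.symm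
    have := h5 G (G ⧸ T) (QuotientGroup.mk' T) _ (QuotientGroup.mk'_surjective T)
      (hyp _ hle hcard)
    rwa [hmap] at this
  · have h5 := card_map_mul (QuotientGroup.mk' T) P (hker.le.trans hTP)
    rw [hker, hT] at h5
    rw [mul_comm]
    exact h5

end Q147.PM_A9
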