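import Pool.Agent.H693R3.SpecDir4

set_option autoImplicit false

namespace Q147.SpecDirCor

open Pool.Agent.H693R3.SpecDir

lemma tendsto_eps (k : ℕ) :
    Filter.Tendsto (fun p : ℕ => 4 * Pool.Agent.H693R3.SpecDir.eta p k + 2 / (p : ℝ)) Filter.atTop
      (nhds 0) := by
  have h1 : Filter.Tendsto (fun x : ℝ => x ^ (-(1 / 2 ^ k : ℝ)) * (1 + Real.log x))
      Filter.atTop (nhds 0) := by
    have e1 : Filter.Tendsto (fun x : ℝ => x ^ (-(1 / 2 ^ k : ℝ))) Filter.atTop (nhds 0) :=
      tendsto_rpow_neg_atTop (by positivity)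
    have e2 : Filter.Tendsto (fun x : ℝ => Real.log x / x ^ ((1 / 2 ^ k : ℝ))) Filter.atTop
        (nhds 0) :=
      (isLittleO_log_rpow_atTop (by positivity)).tendsto_div_nhds_zero
    have e3 := e1.add e2
    rw [add_zero] at e3
    refine e3.congr' ?_
    filter_upwards [Filter.eventually_gt_atTop 0] with x hx
    rw [Real.rpow_neg hx.le]
    field_simp
  have h2 : Filter.Tendsto (fun p : ℕ => Pool.Agent.H693R3.SpecDir.eta p k) Filter.atTop (nhds 0) := by
    unfold Pool.Agent.H693R3.SpecDir.eta Pool.Agent.H693R3.SpecDir.sav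
    exact h1.comp tendsto_natCast_atTop_atTop
  have h3 : Filter.Tendsto (fun p : ℕ => 2 / (p : ℝ)) Filter.atTop (nhds 0) :=
    tendsto_const_nhds.div_atTop tendsto_natCast_atTop_atTop
  have h4 := (h2.const_mul 4).add h3
  simpa using h4

/-- For every `k ≥ 4` and every large prime `p` no set of size divisible by `p` has exactly `k`
special directions (quoted from the library). -/
theorem main (k : ℕ) (hk : 4 ≤ k) : ∃ p₀ : ℕ, ∀ (p : ℕ) [Fact p.Prime], p₀ < p →
      ∀ S : Finset (ZMod p × ZMod p), p ∣ S.card →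
        {d : Option (ZMod p) | ∃ b : ZMod p, N S d b * p ≠ S.card}.ncard ≠ k := by
  have h1 := (tendsto_eps k).eventually (gt_mem_nhds (show (0:ℝ) < 1 / 144 by norm_num))
  obtain ⟨p₀, hp₀⟩ := Filter.eventually_atTop.mp h1
  refine ⟨p₀, fun p _ hlt S hS => ?_⟩
  exact Pool.Agent.H693R3.SpecDir.core k hk (hp₀ p hlt.le) S hS

section
variable {p : ℕ} [Fact p.Prime]

/-- direction vector of a slope -/
def vec (o : Option (ZMod p)) : ZMod p × ZMod p := o.elim (0, 1) (fun m => (1, m))

/-- the direction (one-dimensional subspace) of a slope -/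
def dir (o : Option (ZMod p)) : Submodule (ZMod p) (ZMod p × ZMod p) :=
  Submodule.span (ZMod p) {vec o}

/-- the linear form whose level sets are the lines of slope `o` -/
def lin (o : Option (ZMod p)) (q : ZMod p × ZMod p) : ZMod p :=
  o.elim q.1 (fun m => q.2 - m * q.1)

lemma mem_dir (o : Option (ZMod p)) (s x : ZMod p × ZMod p) :
    s - x ∈ dir o ↔ lin o s = lin o x := by
  unfold dir
  rw [Submodule.mem_span_singleton]
  cases o with
  | none =>
    simp only [vec, lin, Option.elim_none]
    constructor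
    · rintro ⟨a, ha⟩
      have := congrArg Prod.fst ha
      simp at this
      rw [eq_comm, sub_eq_zero] at this
      exact this
    · intro h
      refine ⟨s.2 - x.2, ?_⟩
      ext <;> simp [h]
  | some m =>
    simp only [vec, lin, Option.elim_some]
    constructor
    · rintro ⟨a, ha⟩
      have h1 := congrArg Prod.fst ha
      have h2 := congrArg Prod.snd ha
      simp at h1 h2
      subst h1
      linear_combination (-1 : ZMod p) * h2
    · intro h
      refine ⟨s.1 - x.1, ?_⟩
      ext
      · simp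
      · simp; linear_combination (-1 : ZMod p) * h

lemma vec_ne (o : Option (ZMod p)) : vec o ≠ 0 := by
  cases o with
  | none => intro h; have := congrArg Prod.snd h; simp [vec] at this
  | some m => intro h; have := congrArg Prod.fst h; simp [vec] at this

lemma finrank_dir (o : Option (ZMod p)) : Module.finrank (ZMod p) (dir o) = 1 :=
  finrank_span_singleton (vec_ne o)

lemma dir_injective : Function.Injective (dir (p := p)) := by
  intro o o' h
  have h1 : vec o - 0 ∈ dir o' := by
    rw [← h, sub_zero]; exact Submodule.mem_span_singleton_self _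
  rw [mem_dir] at h1
  cases o with
  | none =>
    cases o' with
    | none => rfl
    | some m => simp [vec, lin] at h1
  | some m =>
    cases o' with
    | none => simp [vec, lin] at h1
    | some m' =>
      simp only [vec, lin, Option.elim_some, Prod.fst_zero, Prod.snd_zero, mul_zero, sub_zero,
        mul_one] at h1
      rw [sub_eq_zero] at h1
      rw [h1]

lemma exists_dir (v : Submodule (ZMod p) (ZMod p × ZMod p))
    (hv : Module.finrank (ZMod p) v = 1) : ∃ o, dir o = v := by
  obtain ⟨w, hw0, hw⟩ := finrank_eq_one_iff'.1 hv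
  have hv' : v = Submodule.span (ZMod p) {(w : ZMod p × ZMod p)} := by
    apply le_antisymm
    · intro y hy
      obtain ⟨c, hc⟩ := hw ⟨y, hy⟩
      rw [Submodule.mem_span_singleton]
      exact ⟨c, congrArg Subtype.val hc⟩
    · rw [Submodule.span_singleton_le_iff_mem]; exact w.2
  have hw1 : (w : ZMod p × ZMod p) ≠ 0 := fun h => hw0 (Subtype.ext h)
  rw [hv']
  by_cases h : (w : ZMod p × ZMod p).1 = 0
  · refine ⟨none, ?_⟩
    have h2 : (w : ZMod p × ZMod p).2 ≠ 0 := by
      intro h2; exact hw1 (Prod.ext h h2)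
    have : (w : ZMod p × ZMod p) = (w : ZMod p × ZMod p).2 • vec (none : Option (ZMod p)) := by
      ext <;> simp [vec, h]
    unfold dir
    rw [this]
    exact (Submodule.span_singleton_smul_eq (IsUnit.mk0 _ h2) _).symm
  · refine ⟨some ((w : ZMod p × ZMod p).2 / (w : ZMod p × ZMod p).1), ?_⟩
    have : (w : ZMod p × ZMod p) = (w : ZMod p × ZMod p).1 •
        vec (some ((w : ZMod p × ZMod p).2 / (w : ZMod p × ZMod p).1)) := by
      ext
      · simp [vec]
      · simp [vec]; field_simp
    unfold dir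
    conv_rhs => rw [this]
    exact (Submodule.span_singleton_smul_eq (IsUnit.mk0 _ h) _).symm

/-- all lines parallel to `v` meet `S` in the same number of points -/
def Equi (S : Finset (ZMod p × ZMod p)) (v : Submodule (ZMod p) (ZMod p × ZMod p)) : Prop :=
  ∀ x y : ZMod p × ZMod p, {s : ZMod p × ZMod p | s ∈ S ∧ s - x ∈ v}.ncard =
    {s : ZMod p × ZMod p | s ∈ S ∧ s - y ∈ v}.ncard

lemma N_eq (S : Finset (ZMod p × ZMod p)) (o : Option (ZMod p)) (x : ZMod p × ZMod p) :
    {s : ZMod p × ZMod p | s ∈ S ∧ s - x ∈ dir o}.ncard = N S o (lin o x) := by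
  have : {s : ZMod p × ZMod p | s ∈ S ∧ s - x ∈ dir o} =
      ((S.filter (fun q => lin o q = lin o x) : Finset (ZMod p × ZMod p)) : Set _) := by
    ext s
    simp only [Set.mem_ofPred_eq, Finset.coe_filter, mem_dir]
  rw [this, Set.ncard_coe_finset]
  rfl

lemma lin_surj (o : Option (ZMod p)) (b : ZMod p) : ∃ x, lin o x = b := by
  cases o with
  | none => exact ⟨(b, 0), rfl⟩
  | some m => exact ⟨(0, b), by simp [lin]⟩

lemma sum_N (S : Finset (ZMod p × ZMod p)) (o : Option (ZMod p)) :
    ∑ b : ZMod p, N S o b = S.card := by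
  have := Finset.card_eq_sum_card_fiberwise (f := lin o) (s := S) (t := Finset.univ)
    (fun _ _ => Finset.mem_coe.2 (Finset.mem_univ _))
  rw [this]
  rfl

lemma equi_iff (S : Finset (ZMod p × ZMod p)) (o : Option (ZMod p)) :
    Equi S (dir o) ↔ ¬ ∃ b : ZMod p, N S o b * p ≠ S.card := by
  constructor
  · rintro h ⟨b, hb⟩
    apply hb
    obtain ⟨x, rfl⟩ := lin_surj o b
    have h2 : ∀ c : ZMod p, N S o c = N S o (lin o x) := by
      intro c
      obtain ⟨y, rfl⟩ := lin_surj o c
      rw [← N_eq, ← N_eq]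
      exact h y x
    have h3 := sum_N S o
    rw [Finset.sum_congr rfl (fun c _ => h2 c)] at h3
    simp [ZMod.card] at h3
    rw [← h3]; ring
  · intro h x y
    push Not at h
    rw [N_eq, N_eq]
    have h1 := h (lin o x)
    have h2 := h (lin o y)
    have hp : 0 < p := (Fact.out : p.Prime).pos
    exact Nat.eq_of_mul_eq_mul_right hp (h1.trans h2.symm)

lemma ncard_equi (S : Finset (ZMod p × ZMod p)) :
    {v : Submodule (ZMod p) (ZMod p × ZMod p) |
      Module.finrank (ZMod p) v = 1 ∧ Equi S v}.ncard +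
    {d : Option (ZMod p) | ∃ b : ZMod p, N S d b * p ≠ S.card}.ncard = p + 1 := by
  have h1 : {v : Submodule (ZMod p) (ZMod p × ZMod p) |
      Module.finrank (ZMod p) v = 1 ∧ Equi S v} =
      dir '' {d : Option (ZMod p) | ∃ b : ZMod p, N S d b * p ≠ S.card}ᶜ := by
    ext v
    constructor
    · rintro ⟨hv, he⟩
      obtain ⟨o, rfl⟩ := exists_dir v hv
      exact ⟨o, (equi_iff S o).1 he, rfl⟩
    · rintro ⟨o, ho, rfl⟩
      exact ⟨finrank_dir o, (equi_iff S o).2 ho⟩
  rw [h1, Set.ncard_image_of_injective _ dir_injective, add_comm, Set.ncard_add_ncard_compl,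
    Nat.card_eq_fintype_card, Fintype.card_option, ZMod.card]

end

theorem final (k : ℕ) (hk : 4 ≤ k) : ∃ p₀ : ℕ, k ≤ p₀ ∧ ∀ (p : ℕ) [Fact p.Prime], p₀ < p →
      ∀ S : Finset (ZMod p × ZMod p),
        {v : Submodule (ZMod p) (ZMod p × ZMod p) |
          Module.finrank (ZMod p) v = 1 ∧ Equi S v}.ncard ≠ p + 1 - k := by
  obtain ⟨p₀, hp₀⟩ := main k hk
  refine ⟨max p₀ k, le_max_right _ _, ?_⟩
  intro p hp hlt S hS
  have hk' : k < p := lt_of_le_of_lt (le_max_right _ _) hlt
  have h2 := ncard_equi S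
  rw [hS] at h2
  have h3 : {d : Option (ZMod p) | ∃ b : ZMod p, N S d b * p ≠ S.card}.ncard = k := by omega
  refine hp₀ p (lt_of_le_of_lt (le_max_left _ _) hlt) S ?_ h3
  -- some direction is equidistributed
  have h4 : {v : Submodule (ZMod p) (ZMod p × ZMod p) |
          Module.finrank (ZMod p) v = 1 ∧ Equi S v}.ncard ≠ 0 := by omega
  obtain ⟨v, hv, he⟩ := Set.nonempty_of_ncard_ne_zero h4
  obtain ⟨o, rfl⟩ := exists_dir v hv
  have h5 := (equi_iff S o).1 he
  push Not at h5
  exact ⟨N S o 0, by rw [← h5 0]; ring⟩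

end Q147.SpecDirCor
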